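import Pool.Agent.R283.BM.Defs

/-! # The extremal function and the equilibrium measure of the closed unit disc -/

namespace Pool.Agent.R283.BM

open MeasureTheory Metric Set Filter Topology Polynomial Pool.Agent.R212.Psh

open scoped Laplacian ContDiff ComplexConjugate

theorem continuous_posLog_norm : Continuous fun z : ℂ => Real.posLog ‖z‖ :=
  Real.continuous_posLog.comp continuous_norm

theorem posLog_lelong : Lelong (fun z => ((Real.posLog ‖z‖ : ℝ) : EReal)) := by
  refine ⟨?_, 0, ?_⟩
  · apply subharmonic_of_continuous univ _ continuous_posLog_norm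
    intro c r hr
    rcases le_or_gt ‖c‖ 1 with h | h
    · have h0 : Real.posLog ‖c‖ = 0 := by
        rw [Real.posLog_eq_zero_iff, abs_of_nonneg (norm_nonneg c)]
        exact h
      rw [h0]
      have h1 := Real.circleAverage_mono (f₁ := fun _ : ℂ => (0:ℝ)) (f₂ := fun z : ℂ => Real.posLog ‖z‖)
        (c := c) (R := r) (circleIntegrable_const 0 c r)
        (continuous_posLog_norm.continuousOn.circleIntegrable') (fun x _ => Real.posLog_nonneg)
      rw [Real.circleAverage_const] at h1
      exact h1
    · have hc : c ≠ 0 := by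
        intro h0
        rw [h0, norm_zero] at h
        linarith
      refine le_circleAverage_of_support _ continuous_posLog_norm c hc 1 0 zero_le_one ?_ ?_ r hr
      · intro z _
        rw [one_mul, add_zero]
        exact le_max_right _ _
      · rw [Real.posLog_eq_log (by rw [abs_of_nonneg (norm_nonneg c)]; exact h.le)]
        ring
  · intro z
    simp

theorem siciak_bound {u : ℂ → EReal} (hu : Lelong u)
    (hK : ∀ w ∈ closedBall (0:ℂ) 1, u w ≤ 0) (z : ℂ) :
    u z ≤ ((Real.posLog ‖z‖ : ℝ) : EReal) := by
  rcases le_total ‖z‖ 1 with h | h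
  · refine (hK z (by simpa using h)).trans ?_
    exact_mod_cast Real.posLog_nonneg
  · rw [Real.posLog_eq_log (by rw [abs_of_nonneg (norm_nonneg z)]; exact h)]
    obtain ⟨hs, C, hC⟩ := hu
    have key : ∀ ε : ℝ, 0 < ε → u z ≤ (((1 + ε) * Real.log ‖z‖ + 0 : ℝ) : EReal) := by
      intro ε hε
      set R : ℝ := max (Real.exp ((|C| + 1) / ε)) (‖z‖) with hR
      have hexp : Real.exp ((|C| + 1) / ε) ≤ R := le_max_left _ _
      have hRz : ‖z‖ ≤ R := le_max_right _ _
      have h1R : 1 < R := by
        refine lt_of_lt_of_le ?_ hexp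
        rw [Real.one_lt_exp_iff]
        positivity
      have hlogR : (|C| + 1) / ε ≤ Real.log R := by
        rw [Real.le_log_iff_exp_le (by linarith)]
        exact hexp
      have hlogR' : |C| + 1 ≤ ε * Real.log R := by
        rw [div_le_iff₀ hε] at hlogR
        linarith
      refine annulus_max hs h1R (subset_univ _) (1 + ε) 0 ?_ ?_ z h hRz
      · intro x hx
        exact (hK x (by simp [hx])).trans (by simp)
      · intro x hx
        refine (hC x).trans ?_
        rw [EReal.coe_le_coe_iff, Real.posLog_eq_log (by rw [hx, abs_of_pos (by linarith)]; exact h1R.le), hx]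
        have := le_abs_self C
        linarith
    rcases eq_or_ne (u z) ⊥ with hb | hb
    · rw [hb]
      exact bot_le
    · have htop' := (hs.2.1 z (mem_univ z)).ne
      lift u z to ℝ using ⟨htop', hb⟩ with s
      rw [EReal.coe_le_coe_iff]
      apply le_of_forall_pos_le_add
      intro δ hδ
      have hl := Real.log_nonneg h
      have := key (δ / (Real.log ‖z‖ + 1)) (by positivity)
      rw [EReal.coe_le_coe_iff] at this
      have h3 : δ / (Real.log ‖z‖ + 1) * Real.log ‖z‖ ≤ δ := by
        rw [div_mul_eq_mul_div, div_le_iff₀ (by linarith)]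
        nlinarith
      linarith

theorem siciak_disc (z : ℂ) :
    siciak (closedBall (0:ℂ) 1) z = ((Real.posLog ‖z‖ : ℝ) : EReal) := by
  apply le_antisymm
  · apply sSup_le
    rintro t ⟨u, hu, hK, rfl⟩
    exact siciak_bound hu hK z
  · apply le_sSup
    refine ⟨_, posLog_lelong, fun w hw => ?_, rfl⟩
    have hw' : ‖w‖ ≤ 1 := by simpa using hw
    have : Real.posLog ‖w‖ = 0 := by
      rw [Real.posLog_eq_zero_iff, abs_of_nonneg (norm_nonneg w)]
      exact hw'
    rw [this]
    simp

theorem reg_siciak_disc (z : ℂ) :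
    reg univ (siciak (closedBall (0:ℂ) 1)) z = ((Real.posLog ‖z‖ : ℝ) : EReal) := by
  unfold reg
  rw [show siciak (closedBall (0:ℂ) 1) = fun z => ((Real.posLog ‖z‖ : ℝ) : EReal) from
    funext siciak_disc, nhdsWithin_univ]
  apply Tendsto.limsup_eq
  exact (continuous_coe_real_ereal.comp continuous_posLog_norm).tendsto z

/-- normalized arc length measure on the unit circle -/
noncomputable def sig : Measure ℂ :=
  ENNReal.ofReal (2 * Real.pi)⁻¹ • Measure.map ee (volume.restrict (Ioc (-Real.pi) Real.pi))

theorem integral_sig {φ : ℂ → ℝ} (hφ : Continuous φ) :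
    ∫ z, φ z ∂sig = (2 * Real.pi)⁻¹ * ∫ θ in Ioc (-Real.pi) Real.pi, φ (ee θ) := by
  unfold sig
  rw [integral_smul_measure, integral_map measurable_ee.aemeasurable hφ.aestronglyMeasurable,
    ENNReal.toReal_ofReal (by positivity), smul_eq_mul]

theorem isProbabilityMeasure_sig : IsProbabilityMeasure sig := by
  constructor
  unfold sig
  rw [Measure.smul_apply, map_ee_apply MeasurableSet.univ, preimage_univ,
    Measure.restrict_apply MeasurableSet.univ, univ_inter, Real.volume_Ioc, smul_eq_mul,
    ← ENNReal.ofReal_mul (by positivity)]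
  rw [show (2 * Real.pi)⁻¹ * (Real.pi - -Real.pi) = 1 by
    have := Real.pi_pos
    field_simp
    ring]
  exact ENNReal.ofReal_one

theorem posLog_eq_W_sub (z : ℂ) : Real.posLog ‖z‖ = W 1 z - W 0 z := by
  unfold W
  rcases le_total ‖z‖ 1 with h | h
  · rw [max_eq_right h, Real.posLog_eq_zero_iff _ |>.2 (by rwa [abs_of_nonneg (norm_nonneg z)])]
    simp
  · rw [max_eq_left h, Real.posLog_eq_log (by rwa [abs_of_nonneg (norm_nonneg z)])]
    ring

theorem isEquilibrium_sig : IsEquilibrium (closedBall (0:ℂ) 1) sig := by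
  refine ⟨isProbabilityMeasure_sig, fun φ hφ hs => ?_⟩
  rw [integral_sig hφ.continuous]
  congr 1
  have h1 := integral_W_mul_laplacian hφ 1 hs
  have h0 := integral_W_mul_laplacian hφ 0 hs
  have hΔc : Continuous (Δ φ) := by
    have h2 := fd2 hφ
    have e : (Δ φ) = fun z => fderiv ℝ (fderiv ℝ φ) z 1 1 +
        fderiv ℝ (fderiv ℝ φ) z Complex.I Complex.I := by
      funext z
      rw [InnerProductSpace.laplacian_eq_iteratedFDeriv_complexPlane]
      simp [iteratedFDeriv_two_apply]
    rw [e]
    fun_prop
  have hΔs : HasCompactSupport (Δ φ) := by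
    apply HasCompactSupport.intro (K := tsupport φ) hs
    intro z hz
    have h0 : fderiv ℝ (fderiv ℝ φ) z = 0 := by
      apply fderiv_of_notMem_tsupport
      intro hmem
      exact hz (tsupport_fderiv_subset ℝ hmem)
    rw [InnerProductSpace.laplacian_eq_iteratedFDeriv_complexPlane]
    simp [iteratedFDeriv_two_apply, h0]
  have hint : ∀ α : ℝ, Integrable (fun z => W α z * (Δ φ) z) := fun α =>
    ((continuous_W α).mul hΔc).integrable_of_hasCompactSupport hΔs.mul_left
  have e2 : ∀ z, (reg univ (siciak (closedBall (0:ℂ) 1)) z).toReal * (Δ φ) z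
      = W 1 z * (Δ φ) z - W 0 z * (Δ φ) z := by
    intro z
    rw [reg_siciak_disc, EReal.toReal_coe, posLog_eq_W_sub]
    ring
  simp only [e2]
  rw [integral_sub (hint 1) (hint 0), h1, h0]
  ring

end Pool.Agent.R283.BM
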