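import Pool.Agent.R283.BM.A
import Pool.Agent.H705R2.Weyl

/-! # The points `e^{ij}` are distinct and equidistributed on the unit circle -/

namespace Pool.Agent.R283.BM

open MeasureTheory Metric Set Filter Topology Polynomial Pool.Agent.R212.Psh

open scoped Laplacian ContDiff ComplexConjugate

/-- the points -/
noncomputable def pt (j : ℕ) : ℂ := ee (j : ℝ)

theorem norm_pt (j : ℕ) : ‖pt j‖ = 1 := ee_norm _

theorem irr : Irrational (1 / (2 * Real.pi)) := by
  have h1 : Irrational (2 * Real.pi) := by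
    have := irrational_pi.natCast_mul (m := 2) (by norm_num)
    simpa using this
  simpa using h1.inv

theorem addOrder : addOrderOf ((1 / (2 * Real.pi) : ℝ) : AddCircle (1:ℝ)) = 0 := by
  rw [addOrderOf_eq_zero_iff]
  intro h
  rw [isOfFinAddOrder_iff_nsmul_eq_zero] at h
  obtain ⟨n, hn, h⟩ := h
  rw [← AddCircle.coe_nsmul, AddCircle.coe_eq_zero_iff] at h
  obtain ⟨m, hm⟩ := h
  have h2 := irr.natCast_mul hn.ne'
  apply h2
  refine ⟨(m : ℚ), ?_⟩
  simp only [nsmul_eq_mul, zsmul_eq_mul, mul_one] at hm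
  rw [← hm]
  push_cast
  rfl

theorem toCircle_smul (m : ℕ) :
    ((AddCircle.toCircle (0 + m • ((1 / (2 * Real.pi) : ℝ) : AddCircle (1:ℝ))) : Circle) : ℂ)
      = pt m := by
  rw [zero_add, ← AddCircle.coe_nsmul, AddCircle.toCircle_apply_mk, Circle.coe_exp]
  unfold pt ee
  congr 1
  have := Real.pi_ne_zero
  have h3 : (Real.pi : ℂ) ≠ 0 := by exact_mod_cast this
  simp only [nsmul_eq_mul]
  push_cast
  field_simp

theorem pt_injective : Function.Injective pt := by
  intro a b hab
  rw [← toCircle_smul, ← toCircle_smul] at hab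
  have h1 := AddCircle.injective_toCircle one_ne_zero (Subtype.ext hab)
  rw [zero_add, zero_add] at h1
  have h2 := addOrder
  rw [addOrderOf_eq_zero_iff, ← injective_nsmul_iff_not_isOfFinAddOrder] at h2
  exact h2 h1

theorem equi {φ : ℂ → ℝ} (hφ : Continuous φ) :
    Tendsto (fun M : ℕ => (∑ j ∈ Finset.range M, φ (pt j)) / M) atTop (𝓝 (∫ z, φ z ∂sig)) := by
  have hc : Continuous fun x : AddCircle (1:ℝ) => ((φ (AddCircle.toCircle x : ℂ) : ℝ) : ℂ) := by
    have := AddCircle.continuous_toCircle (T := (1:ℝ))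
    fun_prop
  have h1 := Pool.Agent.H705R2.weyl addOrder 0 ⟨_, hc⟩
  have h2 : ∫ x : AddCircle (1:ℝ), ((φ (AddCircle.toCircle x : ℂ) : ℝ) : ℂ)
      = ((∫ z, φ z ∂sig : ℝ) : ℂ) := by
    rw [integral_complex_ofReal]
    congr 1
    rw [integral_sig hφ, ← AddCircle.intervalIntegral_preimage (1:ℝ) (-(1/2))
      (fun x : AddCircle (1:ℝ) => φ (AddCircle.toCircle x : ℂ)),
      ← intervalIntegral.integral_of_le (by linarith [Real.pi_pos])]
    have h3 : ∀ x : ℝ, φ (AddCircle.toCircle ((x : ℝ) : AddCircle (1:ℝ)) : ℂ)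
        = φ (ee ((2 * Real.pi) * x)) := by
      intro x
      rw [AddCircle.toCircle_apply_mk, Circle.coe_exp]
      unfold ee
      congr 3
      push_cast
      ring
    simp only [h3]
    rw [intervalIntegral.integral_comp_mul_left (fun x => φ (ee x)) (by positivity)]
    rw [smul_eq_mul]
    congr 2
    · ring
    · ring
  have h4 : Tendsto (fun M => Pool.Agent.H705R2.avg ((1 / (2 * Real.pi) : ℝ) : AddCircle (1:ℝ)) 0
      (fun x => ((φ (AddCircle.toCircle x : ℂ) : ℝ) : ℂ)) M) atTop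
      (𝓝 ((∫ z, φ z ∂sig : ℝ) : ℂ)) := by
    rw [← h2]
    exact h1
  have h5 : ∀ M, Pool.Agent.H705R2.avg ((1 / (2 * Real.pi) : ℝ) : AddCircle (1:ℝ)) 0
      (fun x => ((φ (AddCircle.toCircle x : ℂ) : ℝ) : ℂ)) M
      = (((∑ j ∈ Finset.range M, φ (pt j)) / M : ℝ) : ℂ) := by
    intro M
    unfold Pool.Agent.H705R2.avg
    simp only [toCircle_smul]
    push_cast
    rfl
  simp only [h5] at h4
  have h6 := (Complex.continuous_re.tendsto _).comp h4
  simpa [Function.comp_def, Complex.ofReal_re] using h6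

end Pool.Agent.R283.BM
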