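import Pool.Agent.R283.BM.B

/-! # Purely atomic measures and Bergman functions -/

namespace Pool.Agent.R283.BM

open MeasureTheory Metric Set Filter Topology Polynomial Pool.Agent.R212.Psh

open scoped Laplacian ContDiff ComplexConjugate

/-- the atomic measure `∑ ε_j δ_{e^{ij}}` -/
noncomputable def atm (ε : ℕ → ℝ) : Measure ℂ :=
  Measure.sum fun j => ENNReal.ofReal (ε j) • Measure.dirac (pt j)

section

variable {ε : ℕ → ℝ} (hε : ∀ j, 0 < ε j) (hs : Summable ε)

include hε hs in
theorem isFinite_atm : IsFiniteMeasure (atm ε) := by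
  constructor
  unfold atm
  rw [Measure.sum_apply _ MeasurableSet.univ]
  have : ∀ j, (ENNReal.ofReal (ε j) • Measure.dirac (pt j)) univ = ENNReal.ofReal (ε j) := by
    intro j
    simp
  simp only [this]
  rw [← ENNReal.ofReal_tsum_of_nonneg (fun j => (hε j).le) hs]
  exact ENNReal.ofReal_lt_top

theorem atm_compl (ε : ℕ → ℝ) : atm ε (sphere (0:ℂ) 1)ᶜ = 0 := by
  unfold atm
  rw [Measure.sum_apply _ isClosed_sphere.measurableSet.compl]
  simp only [Measure.smul_apply, smul_eq_mul]
  rw [ENNReal.tsum_eq_zero]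
  intro j
  rw [Measure.dirac_apply' _ isClosed_sphere.measurableSet.compl]
  have : pt j ∉ (sphere (0:ℂ) 1)ᶜ := by simp [norm_pt]
  simp [this]

theorem atm_compl_ball (ε : ℕ → ℝ) : atm ε (closedBall (0:ℂ) 1)ᶜ = 0 :=
  measure_mono_null (compl_subset_compl.2 sphere_subset_closedBall) (atm_compl ε)

include hε hs in
theorem integrable_atm {E : Type*} [NormedAddCommGroup E] [SecondCountableTopology E]
    [MeasurableSpace E] [BorelSpace E] {f : ℂ → E}
    (hf : Continuous f) : Integrable f (atm ε) := by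
  have := isFinite_atm hε hs
  obtain ⟨C, hC⟩ := (isCompact_sphere (0:ℂ) 1).exists_bound_of_continuousOn hf.continuousOn
  apply Integrable.of_bound (C := C) hf.aestronglyMeasurable
  have h1 : ∀ᵐ z ∂(atm ε), z ∈ sphere (0:ℂ) 1 := by
    rw [ae_iff]
    exact atm_compl ε
  filter_upwards [h1] with z hz
  exact hC z hz

include hε hs in
theorem hasSum_atm {E : Type*} [NormedAddCommGroup E] [NormedSpace ℝ E] [CompleteSpace E]
    [SecondCountableTopology E] [MeasurableSpace E] [BorelSpace E] {f : ℂ → E}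
    (hf : Continuous f) : HasSum (fun j => ε j • f (pt j)) (∫ z, f z ∂(atm ε)) := by
  have h1 := hasSum_integral_measure (integrable_atm hε hs hf)
  have h2 : ∀ j, ∫ z, f z ∂(ENNReal.ofReal (ε j) • Measure.dirac (pt j)) = ε j • f (pt j) := by
    intro j
    rw [integral_smul_measure, integral_dirac, ENNReal.toReal_ofReal (hε j).le]
  simp only [h2] at h1
  exact h1

/-- squared norm -/
noncomputable def nrm (ε : ℕ → ℝ) (p : ℂ[X]) : ℝ := ∫ z, ‖p.eval z‖ ^ 2 ∂(atm ε)

theorem cont_nsq (p : ℂ[X]) : Continuous fun z : ℂ => ‖p.eval z‖ ^ 2 :=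
  (p.continuous.norm).pow 2

include hε hs in
theorem hasSum_nrm (p : ℂ[X]) : HasSum (fun j => ε j * ‖p.eval (pt j)‖ ^ 2) (nrm ε p) :=
  hasSum_atm hε hs (cont_nsq p)

include hε hs in
theorem nrm_pos {p : ℂ[X]} (hp : p ≠ 0) : 0 < nrm ε p := by
  have h := hasSum_nrm hε hs p
  obtain ⟨j, hj⟩ : ∃ j, p.eval (pt j) ≠ 0 := by
    by_contra hcon
    push Not at hcon
    apply hp
    apply Polynomial.eq_zero_of_infinite_isRoot
    apply (Set.infinite_range_of_injective pt_injective).mono
    rintro _ ⟨j, rfl⟩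
    exact hcon j
  have h1 : ε j * ‖p.eval (pt j)‖ ^ 2 ≤ nrm ε p :=
    le_hasSum h j (fun i _ => mul_nonneg (hε i).le (by positivity))
  have h2 : 0 < ε j * ‖p.eval (pt j)‖ ^ 2 := mul_pos (hε j) (by positivity)
  linarith

include hε hs in
theorem nrm_ge (p : ℂ[X]) (j : ℕ) : ε j * ‖p.eval (pt j)‖ ^ 2 ≤ nrm ε p :=
  le_hasSum (hasSum_nrm hε hs p) j (fun i _ => mul_nonneg (hε i).le (by positivity))

/-- inner product -/
noncomputable def ip (ε : ℕ → ℝ) (p q : ℂ[X]) : ℂ := ∫ z, conj (p.eval z) * q.eval z ∂(atm ε)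

theorem cont_ip (p q : ℂ[X]) : Continuous fun z : ℂ => conj (p.eval z) * q.eval z :=
  (Complex.continuous_conj.comp p.continuous).mul q.continuous

include hε hs in
theorem ip_add_right (p q r : ℂ[X]) : ip ε p (q + r) = ip ε p q + ip ε p r := by
  unfold ip
  rw [← integral_add (integrable_atm hε hs (cont_ip p q)) (integrable_atm hε hs (cont_ip p r))]
  congr 1
  ext z
  rw [eval_add]
  ring

theorem ip_smul_right (ε : ℕ → ℝ) (p q : ℂ[X]) (c : ℂ) : ip ε p (c • q) = c * ip ε p q := by
  unfold ip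
  rw [← integral_const_mul]
  congr 1
  ext z
  rw [eval_smul, smul_eq_mul]
  ring

theorem ip_conj (ε : ℕ → ℝ) (p q : ℂ[X]) : conj (ip ε q p) = ip ε p q := by
  unfold ip
  rw [← integral_conj]
  congr 1
  ext z
  rw [map_mul, Complex.conj_conj]
  ring

theorem ip_self (ε : ℕ → ℝ) (p : ℂ[X]) : ip ε p p = (nrm ε p : ℂ) := by
  unfold ip nrm
  rw [← integral_complex_ofReal]
  congr 1
  ext z
  rw [mul_comm, Complex.mul_conj, Complex.normSq_eq_norm_sq]

include hε hs in
theorem ip_sum_right {ι : Type*} (s : Finset ι) (p : ℂ[X]) (c : ι → ℂ) (q : ι → ℂ[X]) :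
    ip ε p (∑ i ∈ s, c i • q i) = ∑ i ∈ s, c i * ip ε p (q i) := by
  classical
  induction s using Finset.induction_on with
  | empty =>
    simp [ip]
  | insert a s ha ih =>
    rw [Finset.sum_insert ha, Finset.sum_insert ha, ip_add_right hε hs, ih, ip_smul_right]

include hε hs in
theorem exists_onb (k : ℕ) : ∃ e : Fin (k + 1) → ℂ[X], IsONB (atm ε) k e := by
  let E := Polynomial.degreeLT ℂ (k + 1)
  let c : InnerProductSpace.Core ℂ E :=
    { inner := fun p q => ip ε (p : ℂ[X]) (q : ℂ[X])
      conj_inner_symm := fun p q => ip_conj ε _ _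
      re_inner_nonneg := fun p => by
        show 0 ≤ RCLike.re (ip ε (p : ℂ[X]) (p : ℂ[X]))
        rw [ip_self]
        simp only [RCLike.re_eq_complex_re, Complex.ofReal_re]
        unfold nrm
        positivity
      add_left := fun p q r => by
        show ip ε ((p + q : E) : ℂ[X]) (r : ℂ[X]) = _
        rw [← ip_conj ε _ (r : ℂ[X]), Submodule.coe_add, ip_add_right hε hs, map_add, ip_conj,
          ip_conj]
      smul_left := fun p q r => by
        show ip ε ((r • p : E) : ℂ[X]) (q : ℂ[X]) = _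
        rw [← ip_conj ε _ (q : ℂ[X]), Submodule.coe_smul, ip_smul_right, map_mul, ip_conj]
      definite := fun p hp => by
        by_contra hne
        have hne' : (p : ℂ[X]) ≠ 0 := fun h => hne (Subtype.ext h)
        have h1 := nrm_pos hε hs hne'
        have h2 : ip ε (p : ℂ[X]) (p : ℂ[X]) = 0 := hp
        rw [ip_self] at h2
        have h3 : nrm ε (p : ℂ[X]) = 0 := by exact_mod_cast h2
        linarith }
  let _ : NormedAddCommGroup E := @InnerProductSpace.Core.toNormedAddCommGroup ℂ E _ _ _ c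
  let _ : InnerProductSpace ℂ E := InnerProductSpace.ofCore c.toCore
  have : FiniteDimensional ℂ E :=
    LinearEquiv.finiteDimensional (Polynomial.degreeLTEquiv ℂ (k + 1)).symm
  have hfr : Module.finrank ℂ E = k + 1 := by
    rw [LinearEquiv.finrank_eq (Polynomial.degreeLTEquiv ℂ (k + 1))]
    simp
  let b := (stdOrthonormalBasis ℂ E).reindex (finCongr hfr)
  refine ⟨fun i => ((b i : E) : ℂ[X]), ?_, ?_⟩
  · intro i
    have := (b i).2
    rw [Polynomial.mem_degreeLT] at this
    show ((b i : E) : ℂ[X]).degree ≤ (k : ℕ)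
    exact Polynomial.degree_le_of_natDegree_le
      (by
        rcases eq_or_ne ((b i : E) : ℂ[X]) 0 with h0 | h0
        · rw [h0]; simp
        · have := (Polynomial.natDegree_lt_iff_degree_lt h0).2 this
          omega)
  · intro i j
    have := orthonormal_iff_ite.1 b.orthonormal i j
    exact this

end

end Pool.Agent.R283.BM
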