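import Pool.Agent.R283.BM.C

/-! # Properties of Bergman functions -/

namespace Pool.Agent.R283.BM

open MeasureTheory Metric Set Filter Topology Polynomial Pool.Agent.R212.Psh

open scoped Laplacian ContDiff ComplexConjugate

section

variable {ε : ℕ → ℝ} (hε : ∀ j, 0 < ε j) (hs : Summable ε) {k : ℕ} {e : Fin (k + 1) → ℂ[X]}
  (he : IsONB (atm ε) k e)

theorem bergman_nonneg (e : Fin (k + 1) → ℂ[X]) (z : ℂ) : 0 ≤ bergman e z := by
  unfold bergman
  positivity

theorem continuous_bergman (e : Fin (k + 1) → ℂ[X]) : Continuous (bergman e) := by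
  unfold bergman
  exact continuous_finsetSum _ fun i _ => cont_nsq (e i)

include he in
theorem ip_e (i j : Fin (k + 1)) : ip ε (e i) (e j) = if i = j then 1 else 0 := he.2 i j

include hε hs he in
theorem nrm_comb (c : Fin (k + 1) → ℂ) : nrm ε (∑ i, c i • e i) = ∑ i, ‖c i‖ ^ 2 := by
  have h1 := ip_self ε (∑ i, c i • e i)
  rw [ip_sum_right hε hs] at h1
  have h2 : ∀ i, ip ε (∑ j, c j • e j) (e i) = conj (c i) := by
    intro i
    rw [← ip_conj ε _ (e i), ip_sum_right hε hs]
    simp [ip_e he]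
  simp only [h2, Complex.mul_conj, Complex.normSq_eq_norm_sq] at h1
  exact_mod_cast h1.symm

include hε hs he in
theorem exists_comb {p : ℂ[X]} (hp : p.degree ≤ (k : ℕ)) :
    ∃ c : Fin (k + 1) → ℂ, p = ∑ i, c i • e i := by
  let E := Polynomial.degreeLT ℂ (k + 1)
  have hmem : ∀ q : ℂ[X], q.degree ≤ (k : ℕ) → q ∈ E := by
    intro q hq
    rw [Polynomial.mem_degreeLT]
    refine lt_of_le_of_lt hq ?_
    exact_mod_cast Nat.lt_succ_self k
  have hfr : Module.finrank ℂ E = k + 1 := by
    rw [LinearEquiv.finrank_eq (Polynomial.degreeLTEquiv ℂ (k + 1))]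
    simp
  let f : Fin (k + 1) → E := fun i => ⟨e i, hmem _ (he.1 i)⟩
  have hli : LinearIndependent ℂ f := by
    rw [Fintype.linearIndependent_iff]
    intro g hg j
    have h1 : ∑ i, g i • e i = 0 := by
      have := congrArg (Subtype.val) hg
      simpa [f] using this
    have h2 := ip_sum_right hε hs Finset.univ (e j) g e
    rw [h1] at h2
    simp only [ip_e he] at h2
    simp [ip] at h2
    exact h2.symm
  have hspan := hli.span_eq_top_of_card_eq_finrank (by simp [hfr])
  have hp' : (⟨p, hmem p hp⟩ : E) ∈ Submodule.span ℂ (Set.range f) := by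
    rw [hspan]
    trivial
  rw [Submodule.mem_span_range_iff_exists_fun] at hp'
  obtain ⟨c, hc⟩ := hp'
  refine ⟨c, ?_⟩
  have := congrArg (Subtype.val) hc
  simpa [f] using this.symm

include hε hs he in
/-- extremal property of the Bergman function -/
theorem sq_le_nrm_mul {p : ℂ[X]} (hp : p.degree ≤ (k : ℕ)) (z : ℂ) :
    ‖p.eval z‖ ^ 2 ≤ nrm ε p * bergman e z := by
  obtain ⟨c, rfl⟩ := exists_comb hε hs he hp
  rw [nrm_comb hε hs he]
  unfold bergman
  have h1 : ‖(∑ i, c i • e i).eval z‖ ≤ ∑ i, ‖c i‖ * ‖(e i).eval z‖ := by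
    rw [eval_finsetSum]
    refine (norm_sum_le _ _).trans (le_of_eq ?_)
    refine Finset.sum_congr rfl fun i _ => ?_
    rw [eval_smul, smul_eq_mul, norm_mul]
  calc ‖(∑ i, c i • e i).eval z‖ ^ 2 ≤ (∑ i, ‖c i‖ * ‖(e i).eval z‖) ^ 2 := by gcongr
    _ ≤ _ := Finset.sum_mul_sq_le_sq_mul_sq _ _ _

include hε hs he in
theorem integral_bergman : ∫ z, bergman e z ∂(atm ε) = k + 1 := by
  unfold bergman
  rw [integral_finsetSum _ fun i _ => integrable_atm hε hs (cont_nsq (e i))]
  have h1 : ∀ i, ∫ z, ‖(e i).eval z‖ ^ 2 ∂(atm ε) = 1 := by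
    intro i
    have h2 := ip_self ε (e i)
    rw [ip_e he, if_pos rfl] at h2
    have : nrm ε (e i) = 1 := by exact_mod_cast h2.symm
    exact this
  simp [h1]

include hε hs he in
theorem atom_le (j : ℕ) : ε j * bergman e (pt j) ≤ 1 := by
  set B := bergman e (pt j) with hB
  have hB0 : 0 ≤ B := bergman_nonneg e _
  have h1 := nrm_comb hε hs he (fun i => conj ((e i).eval (pt j)))
  have h2 := nrm_ge hε hs (∑ i, conj ((e i).eval (pt j)) • e i) j
  have h3 : (∑ i, conj ((e i).eval (pt j)) • e i).eval (pt j) = (B : ℂ) := by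
    rw [eval_finsetSum, hB]
    unfold bergman
    push_cast
    refine Finset.sum_congr rfl fun i _ => ?_
    rw [eval_smul, smul_eq_mul, mul_comm, Complex.mul_conj, Complex.normSq_eq_norm_sq]
    push_cast
    rfl
  have h4 : ∑ i, ‖conj ((e i).eval (pt j))‖ ^ 2 = B := by
    rw [hB]
    unfold bergman
    refine Finset.sum_congr rfl fun i _ => ?_
    rw [RCLike.norm_conj]
  rw [h1, h3, h4, Complex.norm_real, Real.norm_eq_abs, sq_abs] at h2
  rcases hB0.eq_or_lt with h0 | h0
  · rw [← h0]
    simp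
  · have : (ε j * B) * B ≤ 1 * B := by nlinarith
    exact le_of_mul_le_mul_right this h0

include hε hs in
theorem hasSum_tot {f : ℂ → ℝ} (hf : Continuous f) :
    HasSum (fun j => ε j * f (pt j)) (∫ z, f z ∂(atm ε)) := hasSum_atm hε hs hf

/-- the comparison with the empirical measure -/
theorem compare (he : IsONB (atm ε) k e) (hε : ∀ j, 0 < ε j) (hs : Summable ε)
    (hlow : ∀ j ∈ Finset.range (k + 1), 1 - ε j * bergman e (pt j) ≤ 1 / ((k : ℝ) + 1))
    {φ : ℂ → ℝ} (hφ : Continuous φ) {F : ℝ} (hF : ∀ z : ℂ, ‖z‖ = 1 → |φ z| ≤ F) :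
    |∫ z, φ z * bergman e z ∂(atm ε) - ∑ j ∈ Finset.range (k + 1), φ (pt j)| ≤ 2 * F := by
  have hF0 : 0 ≤ F := (abs_nonneg _).trans (hF 1 (by simp))
  set b : ℕ → ℝ := fun j => ε j * bergman e (pt j) with hb
  have hb0 : ∀ j, 0 ≤ b j := fun j => mul_nonneg (hε j).le (bergman_nonneg e _)
  have hb1 : ∀ j, b j ≤ 1 := atom_le hε hs he
  have htot : HasSum b (k + 1) := by
    have := hasSum_tot hε hs (continuous_bergman e)
    rwa [integral_bergman hε hs he] at this
  have hint : HasSum (fun j => φ (pt j) * b j) (∫ z, φ z * bergman e z ∂(atm ε)) := by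
    have := hasSum_tot hε hs (hφ.mul (continuous_bergman e))
    refine this.congr_fun ?_ |> id
    intro j
    show φ (pt j) * (ε j * bergman e (pt j)) = ε j * (φ (pt j) * bergman e (pt j))
    ring
  set g : ℕ → ℝ := fun j => if j ∈ Finset.range (k + 1) then 1 else 0 with hg
  have hgs : HasSum g (k + 1) := by
    have : HasSum g (∑ j ∈ Finset.range (k + 1), g j) := hasSum_sum_of_ne_finset_zero
      (fun j hj => by simp only [hg]; rw [if_neg hj])
    have h2 : ∑ j ∈ Finset.range (k + 1), g j = k + 1 := by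
      rw [Finset.sum_congr rfl (fun j hj => by simp only [hg]; rw [if_pos hj])]
      simp
    rwa [h2] at this
  have hgφ : HasSum (fun j => φ (pt j) * g j) (∑ j ∈ Finset.range (k + 1), φ (pt j)) := by
    have : HasSum (fun j => φ (pt j) * g j) (∑ j ∈ Finset.range (k + 1), φ (pt j) * g j) :=
      hasSum_sum_of_ne_finset_zero (fun j hj => by simp only [hg]; rw [if_neg hj, mul_zero])
    have h2 : ∑ j ∈ Finset.range (k + 1), φ (pt j) * g j
        = ∑ j ∈ Finset.range (k + 1), φ (pt j) :=
      Finset.sum_congr rfl fun j hj => by simp only [hg]; rw [if_pos hj, mul_one]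
    rwa [h2] at this
  -- `∑ |b - g| ≤ 2`
  set a : ℕ → ℝ := fun j => if j ∈ Finset.range (k + 1) then 1 - b j else 0 with ha
  have haS : ∑ j ∈ Finset.range (k + 1), a j ≤ 1 := by
    calc ∑ j ∈ Finset.range (k + 1), a j ≤ ∑ _j ∈ Finset.range (k + 1), 1 / ((k : ℝ) + 1) := by
          refine Finset.sum_le_sum fun j hj => ?_
          simp only [ha]
          rw [if_pos hj]
          exact hlow j hj
      _ = 1 := by
          rw [Finset.sum_const, Finset.card_range, nsmul_eq_mul]
          push_cast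
          field_simp
  have has : HasSum a (∑ j ∈ Finset.range (k + 1), a j) :=
    hasSum_sum_of_ne_finset_zero (fun j hj => by simp only [ha]; rw [if_neg hj])
  have habs : ∀ j, |b j - g j| = (b j - g j) + 2 * a j := by
    intro j
    simp only [ha, hg]
    split_ifs with h
    · rw [abs_of_nonpos (by linarith [hb1 j])]
      ring
    · rw [abs_of_nonneg (by linarith [hb0 j])]
      ring
  have hS : HasSum (fun j => F * |b j - g j|) (F * (((k + 1 : ℝ) - (k + 1)) +
      2 * ∑ j ∈ Finset.range (k + 1), a j)) := by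
    simp only [habs]
    exact ((htot.sub hgs).add (has.mul_left 2)).mul_left F
  have hD := hint.sub hgφ
  have h5 : ∀ j, φ (pt j) * b j - φ (pt j) * g j ≤ F * |b j - g j| := by
    intro j
    rw [← mul_sub]
    refine (le_abs_self _).trans ?_
    rw [abs_mul]
    exact mul_le_mul_of_nonneg_right (hF _ (norm_pt j)) (abs_nonneg _)
  have h6 : ∀ j, -(F * |b j - g j|) ≤ φ (pt j) * b j - φ (pt j) * g j := by
    intro j
    rw [← mul_sub]
    refine le_trans ?_ (neg_abs_le _)
    rw [abs_mul]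
    exact neg_le_neg (mul_le_mul_of_nonneg_right (hF _ (norm_pt j)) (abs_nonneg _))
  have h7 := hasSum_le h5 hD hS
  have h8 := hasSum_le h6 hS.neg hD
  have h9 : F * (((k + 1 : ℝ) - (k + 1)) + 2 * ∑ j ∈ Finset.range (k + 1), a j) ≤ 2 * F := by
    nlinarith
  rw [abs_le]
  constructor <;> linarith

end

end Pool.Agent.R283.BM
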