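import Pool.Agent.R212.Psh6

/-!
# Bergman functions of polynomial spaces in one variable: definitions (problem MP_58ffb3_an)
-/

namespace Pool.Agent.R283.BM

open MeasureTheory Metric Set Filter Topology Polynomial Pool.Agent.R212.Psh

open scoped Laplacian ContDiff ComplexConjugate

/-- The Siciak–Zaharjuta extremal function of `K ⊂ ℂ`: the supremum of the subharmonic functions
`u` on `ℂ` with `u(ζ) ≤ log⁺ |ζ| + O(1)` and `u ≤ 0` on `K`. -/
noncomputable def siciak (K : Set ℂ) (z : ℂ) : EReal :=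
  sSup {t | ∃ u : ℂ → EReal, Lelong u ∧ (∀ w ∈ K, u w ≤ 0) ∧ t = u z}

/-- `μ` is the equilibrium measure of `K`: the probability measure `dd^c V_K^*`, that is
`μ = (2π)⁻¹ Δ V_K^*` in the sense of distributions. -/
def IsEquilibrium (K : Set ℂ) (μ : Measure ℂ) : Prop :=
  IsProbabilityMeasure μ ∧ ∀ φ : ℂ → ℝ, ContDiff ℝ ∞ φ → HasCompactSupport φ →
    ∫ z, φ z ∂μ = (2 * Real.pi)⁻¹ * ∫ z, (reg univ (siciak K) z).toReal * (Δ φ) z

/-- `e` is an `L²(ν)`-orthonormal basis of the space `P_k` of polynomials of degree at most `k`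
(which has dimension `k + 1`). -/
def IsONB (ν : Measure ℂ) (k : ℕ) (e : Fin (k + 1) → ℂ[X]) : Prop :=
  (∀ i, (e i).degree ≤ (k : ℕ)) ∧
    ∀ i j, ∫ z, conj ((e i).eval z) * (e j).eval z ∂ν = if i = j then 1 else 0

/-- The Bergman function `B = ∑ |e_i|²` of an orthonormal basis. -/
noncomputable def bergman {k : ℕ} (e : Fin (k + 1) → ℂ[X]) (z : ℂ) : ℝ :=
  ∑ i, ‖(e i).eval z‖ ^ 2

/-- Property (S): `N_k⁻¹ B_k ν → μ` weak-*. -/
def PropS (ν μ : Measure ℂ) (e : (k : ℕ) → Fin (k + 1) → ℂ[X]) : Prop :=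
  ∀ φ : ℂ → ℝ, Continuous φ →
    Tendsto (fun k : ℕ => ∫ z, φ z * (((k : ℝ) + 1)⁻¹ * bergman (e k) z) ∂ν) atTop
      (𝓝 (∫ z, φ z ∂μ))

/-- Property (W): `(2k)⁻¹ log B_k → V` locally uniformly on `ℂ`. -/
def PropW (V : ℂ → ℝ) (e : (k : ℕ) → Fin (k + 1) → ℂ[X]) : Prop :=
  TendstoLocallyUniformly
    (fun (k : ℕ) (z : ℂ) => (2 * (k : ℝ))⁻¹ * Real.log (bergman (e k) z)) V atTop

end Pool.Agent.R283.BM
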