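import Pool.Agent.R283.BM.D

/-! # The counterexample -/

namespace Pool.Agent.R283.BM

open MeasureTheory Metric Set Filter Topology Polynomial Pool.Agent.R212.Psh

open scoped Laplacian ContDiff ComplexConjugate

/-- Lagrange polynomials at the points `e^{ij}`, `j ≤ k`, with a common bound on the circle -/
theorem exists_lagrange (k : ℕ) : ∃ C : ℝ, 1 ≤ C ∧ ∀ j ∈ Finset.range (k + 1), ∃ l : ℂ[X],
    l.degree ≤ (k : ℕ) ∧ l.eval (pt j) = 1 ∧
    (∀ i ∈ Finset.range (k + 1), i ≠ j → l.eval (pt i) = 0) ∧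
    ∀ z : ℂ, ‖z‖ = 1 → ‖l.eval z‖ ≤ C := by
  classical
  set l : ℕ → ℂ[X] := fun j => Lagrange.basis (Finset.range (k + 1)) pt j with hl
  have hb : ∀ j, ∃ c : ℝ, ∀ z ∈ sphere (0:ℂ) 1, ‖(l j).eval z‖ ≤ c := fun j =>
    (isCompact_sphere (0:ℂ) 1).exists_bound_of_continuousOn (l j).continuous.continuousOn
  choose c hc using hb
  refine ⟨1 + ∑ j ∈ Finset.range (k + 1), |c j|, ?_, ?_⟩
  · have : 0 ≤ ∑ j ∈ Finset.range (k + 1), |c j| := Finset.sum_nonneg fun _ _ => abs_nonneg _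
    linarith
  · intro j hj
    refine ⟨l j, ?_, ?_, ?_, ?_⟩
    · rw [hl]
      simp only
      rw [Lagrange.degree_basis pt_injective.injOn hj]
      simp
    · exact Lagrange.eval_basis_self pt_injective.injOn hj
    · intro i hi hij
      exact Lagrange.eval_basis_of_ne hij.symm hi
    · intro z hz
      refine (hc j z (by simpa using hz)).trans ?_
      have h1 : |c j| ≤ ∑ j ∈ Finset.range (k + 1), |c j| :=
        Finset.single_le_sum (f := fun j => |c j|) (fun _ _ => abs_nonneg _) hj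
      have h2 := le_abs_self (c j)
      linarith

/-- the bound for the Lagrange polynomials -/
noncomputable def CC (k : ℕ) : ℝ := (exists_lagrange k).choose

theorem CC_ge (k : ℕ) : 1 ≤ CC k := (exists_lagrange k).choose_spec.1

theorem CC_spec (k : ℕ) : ∀ j ∈ Finset.range (k + 1), ∃ l : ℂ[X],
    l.degree ≤ (k : ℕ) ∧ l.eval (pt j) = 1 ∧
    (∀ i ∈ Finset.range (k + 1), i ≠ j → l.eval (pt i) = 0) ∧
    ∀ z : ℂ, ‖z‖ = 1 → ‖l.eval z‖ ≤ CC k := (exists_lagrange k).choose_spec.2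

/-- the decay factor -/
noncomputable def MM (k : ℕ) : ℝ :=
  2 * ((k : ℝ) + 1) * CC k ^ 2 + 2 * 4 ^ (k + 1) * Real.exp (2 * ((k : ℝ) + 1))

theorem MM_ge1 (k : ℕ) : 2 * ((k : ℝ) + 1) * CC k ^ 2 ≤ MM k := by
  unfold MM
  have : 0 ≤ 2 * 4 ^ (k + 1) * Real.exp (2 * ((k : ℝ) + 1)) := by positivity
  linarith

theorem MM_ge2 (k : ℕ) : 2 * 4 ^ (k + 1) * Real.exp (2 * ((k : ℝ) + 1)) ≤ MM k := by
  unfold MM
  have : 0 ≤ 2 * ((k : ℝ) + 1) * CC k ^ 2 := by positivity
  linarith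

theorem MM_ge (k : ℕ) : 2 ≤ MM k := by
  refine le_trans ?_ (MM_ge1 k)
  have h1 := CC_ge k
  have h2 : 1 ≤ CC k ^ 2 := one_le_pow₀ h1
  have h3 : (1:ℝ) ≤ (k : ℝ) + 1 := by
    have : (0:ℝ) ≤ k := Nat.cast_nonneg k
    linarith
  nlinarith

/-- the weights -/
noncomputable def eps : ℕ → ℝ
  | 0 => 1
  | k + 1 => eps k / MM k

theorem eps_pos (k : ℕ) : 0 < eps k := by
  induction k with
  | zero => exact one_pos
  | succ k ih =>
    show 0 < eps k / MM k
    exact div_pos ih (by linarith [MM_ge k])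

theorem eps_succ (k : ℕ) : eps (k + 1) * MM k = eps k := by
  show eps k / MM k * MM k = eps k
  have := MM_ge k
  rw [div_mul_cancel₀]
  linarith

theorem eps_succ_le (k : ℕ) : eps (k + 1) ≤ eps k * (1 / 2) := by
  have h1 := eps_succ k
  have h2 := MM_ge k
  have h3 := eps_pos (k + 1)
  nlinarith

theorem eps_add_le (k i : ℕ) : eps (k + i) ≤ eps k * (1 / 2) ^ i := by
  induction i with
  | zero => simp
  | succ i ih =>
    calc eps (k + (i + 1)) ≤ eps (k + i) * (1 / 2) := eps_succ_le (k + i)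
      _ ≤ (eps k * (1 / 2) ^ i) * (1 / 2) := by gcongr
      _ = _ := by ring

theorem eps_anti {j k : ℕ} (h : j ≤ k) : eps k ≤ eps j := by
  obtain ⟨i, rfl⟩ := Nat.exists_eq_add_of_le h
  refine (eps_add_le j i).trans ?_
  have h1 : ((1:ℝ) / 2) ^ i ≤ 1 := pow_le_one₀ (by norm_num) (by norm_num)
  have := eps_pos j
  nlinarith

theorem summable_eps : Summable eps := by
  refine Summable.of_nonneg_of_le (fun k => (eps_pos k).le) (fun k => ?_)
    (summable_geometric_two)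
  have := eps_add_le 0 k
  rw [zero_add] at this
  simpa [eps] using this

theorem tail_eps (k : ℕ) : ∑' i, eps (i + k) ≤ 2 * eps k := by
  have h1 : HasSum (fun i : ℕ => eps k * (1 / 2) ^ i) (eps k * 2) :=
    hasSum_geometric_two.mul_left _
  have h2 : Summable fun i => eps (i + k) := (summable_nat_add_iff k).2 summable_eps
  have h3 := h2.tsum_le_tsum (fun i => by rw [add_comm]; exact eps_add_le k i) h1.summable
  rw [h1.tsum_eq] at h3
  linarith

/-- a polynomial vanishing at the first `n` points and bounded on the circle has small norm -/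
theorem nrm_le_of_vanish {p : ℂ[X]} {D : ℝ} (n : ℕ) (hD : ∀ z : ℂ, ‖z‖ = 1 → ‖p.eval z‖ ≤ D) :
    nrm eps p ≤ ∑ i ∈ Finset.range n, eps i * ‖p.eval (pt i)‖ ^ 2 + D ^ 2 * (2 * eps n) := by
  have h1 := hasSum_nrm eps_pos summable_eps p
  rw [← h1.tsum_eq, ← h1.summable.sum_add_tsum_nat_add n]
  gcongr
  have h2 : Summable fun i => eps (i + n) := (summable_nat_add_iff n).2 summable_eps
  have h3 : Summable fun i => eps (i + n) * ‖p.eval (pt (i + n))‖ ^ 2 :=
    (summable_nat_add_iff n).2 h1.summable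
  calc ∑' i, eps (i + n) * ‖p.eval (pt (i + n))‖ ^ 2 ≤ ∑' i, eps (i + n) * D ^ 2 := by
        refine h3.tsum_le_tsum (fun i => ?_) (h2.mul_right _)
        have := hD (pt (i + n)) (norm_pt _)
        have := eps_pos (i + n)
        gcongr
    _ = (∑' i, eps (i + n)) * D ^ 2 := tsum_mul_right
    _ ≤ (2 * eps n) * D ^ 2 := by
        gcongr
        exact tail_eps n
    _ = _ := by ring

section

variable {k : ℕ} {e : Fin (k + 1) → ℂ[X]} (he : IsONB (atm eps) k e)

include he in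
theorem atom_ge (j : ℕ) (hj : j ∈ Finset.range (k + 1)) :
    1 - eps j * bergman e (pt j) ≤ 1 / ((k : ℝ) + 1) := by
  obtain ⟨l, hdeg, h1, h0, hC⟩ := CC_spec k j hj
  have hn := nrm_le_of_vanish (k + 1) hC
  have hsum : ∑ i ∈ Finset.range (k + 1), eps i * ‖l.eval (pt i)‖ ^ 2 = eps j := by
    rw [Finset.sum_eq_single_of_mem j hj]
    · rw [h1]
      simp
    · intro i hi hij
      rw [h0 i hi hij]
      simp
  rw [hsum] at hn
  have hsq := sq_le_nrm_mul eps_pos summable_eps he hdeg (pt j)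
  rw [h1, norm_one, one_pow] at hsq
  have hjk : j ≤ k := by simpa [Nat.lt_succ_iff] using hj
  have hm1 : CC k ^ 2 * (2 * eps (k + 1)) * ((k : ℝ) + 1) ≤ eps j := by
    have h2 := eps_succ k
    have h3 := MM_ge1 k
    have h4 := eps_pos (k + 1)
    have h5 := eps_anti hjk
    nlinarith
  set B := bergman e (pt j) with hB
  have hB0 : 0 ≤ B := bergman_nonneg e _
  have hk : (0:ℝ) < (k : ℝ) + 1 := by positivity
  set δ := CC k ^ 2 * (2 * eps (k + 1)) with hδ
  have hδ0 : 0 ≤ δ := by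
    have := eps_pos (k + 1)
    positivity
  have hδj : δ ≤ eps j / ((k : ℝ) + 1) := by
    rw [le_div_iff₀ hk]
    exact hm1
  have hej := eps_pos j
  have h6 : 1 ≤ (eps j + eps j / ((k : ℝ) + 1)) * B := by
    refine hsq.trans ?_
    gcongr
    linarith
  have h7 : (eps j + eps j / ((k : ℝ) + 1)) * B = eps j * B + (eps j * B) / ((k : ℝ) + 1) := by
    ring
  have h8 : (eps j * B) / ((k : ℝ) + 1) ≤ 1 / ((k : ℝ) + 1) := by
    gcongr
    exact atom_le eps_pos summable_eps he j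
  linarith

include he in
theorem bergman_zero_ge (hk : 1 ≤ k) : Real.exp (2 * (k : ℝ)) ≤ bergman e 0 := by
  classical
  obtain ⟨m, rfl⟩ := Nat.exists_eq_add_of_le' hk
  set p : ℂ[X] := ∏ i ∈ Finset.range (m + 1), (X - C (pt i)) with hp
  have hdeg : p.degree ≤ ((m + 1 : ℕ) : WithBot ℕ) := by
    have := Polynomial.natDegree_prod_le (Finset.range (m + 1)) (fun i => (X - C (pt i) : ℂ[X]))
    rw [← hp] at this
    refine Polynomial.degree_le_of_natDegree_le (this.trans ?_)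
    simp
  have h0 : ‖p.eval 0‖ = 1 := by
    rw [hp, eval_prod, norm_prod]
    refine Finset.prod_eq_one fun i _ => ?_
    simp [norm_pt]
  have hb : ∀ z : ℂ, ‖z‖ = 1 → ‖p.eval z‖ ≤ 2 ^ (m + 1) := by
    intro z hz
    rw [hp, eval_prod, norm_prod]
    calc ∏ i ∈ Finset.range (m + 1), ‖(X - C (pt i) : ℂ[X]).eval z‖
        ≤ ∏ _i ∈ Finset.range (m + 1), (2:ℝ) := by
          refine Finset.prod_le_prod (fun _ _ => norm_nonneg _) fun i _ => ?_
          rw [eval_sub, eval_X, eval_C]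
          refine (norm_sub_le _ _).trans ?_
          rw [hz, norm_pt]
          norm_num
      _ = 2 ^ (m + 1) := by simp
  have hn := nrm_le_of_vanish (m + 1) hb
  have hz : ∑ i ∈ Finset.range (m + 1), eps i * ‖p.eval (pt i)‖ ^ 2 = 0 := by
    refine Finset.sum_eq_zero fun i hi => ?_
    have : p.eval (pt i) = 0 := by
      rw [hp, eval_prod]
      exact Finset.prod_eq_zero hi (by simp)
    rw [this]
    simp
  rw [hz, zero_add] at hn
  have hsq := sq_le_nrm_mul eps_pos summable_eps he hdeg 0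
  rw [h0, one_pow] at hsq
  have h1 := eps_succ m
  have h2 := MM_ge2 m
  have h3 := eps_pos (m + 1)
  have h4 : eps m ≤ 1 := eps_anti (Nat.zero_le m)
  have h5 : ((2:ℝ) ^ (m + 1)) ^ 2 = 4 ^ (m + 1) := by
    rw [← pow_mul, mul_comm, pow_mul]
    norm_num
  rw [h5] at hn
  set E := Real.exp (2 * ((m : ℝ) + 1)) with hE
  have hE0 : 0 < E := Real.exp_pos _
  have h6 : (4 ^ (m + 1) * (2 * eps (m + 1))) * E ≤ 1 := by
    calc (4 ^ (m + 1) * (2 * eps (m + 1))) * E = eps (m + 1) * (2 * 4 ^ (m + 1) * E) := by ring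
      _ ≤ eps (m + 1) * MM m := by gcongr
      _ = eps m := h1
      _ ≤ 1 := h4
  have hB0 : 0 ≤ bergman e 0 := bergman_nonneg e _
  have h7 : 1 ≤ (4 ^ (m + 1) * (2 * eps (m + 1))) * bergman e 0 :=
    hsq.trans (by gcongr)
  have hcast : ((m + 1 : ℕ) : ℝ) = (m : ℝ) + 1 := by push_cast; rfl
  rw [hcast, ← hE]
  have h8 : 0 < 4 ^ (m + 1) * (2 * eps (m + 1)) := by positivity
  by_contra hcon
  push Not at hcon
  have : (4 ^ (m + 1) * (2 * eps (m + 1))) * bergman e 0
      < (4 ^ (m + 1) * (2 * eps (m + 1))) * E := by gcongr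
  linarith

end

theorem propS (e : (k : ℕ) → Fin (k + 1) → ℂ[X]) (he : ∀ k, IsONB (atm eps) k (e k)) :
    PropS (atm eps) sig e := by
  intro φ hφ
  obtain ⟨F, hF⟩ := (isCompact_sphere (0:ℂ) 1).exists_bound_of_continuousOn hφ.continuousOn
  have hF' : ∀ z : ℂ, ‖z‖ = 1 → |φ z| ≤ F := fun z hz => hF z (by simpa using hz)
  have h1 : ∀ k : ℕ, |∫ z, φ z * (((k : ℝ) + 1)⁻¹ * bergman (e k) z) ∂(atm eps)
      - (∑ j ∈ Finset.range (k + 1), φ (pt j)) / ((k + 1 : ℕ) : ℝ)| ≤ 2 * F * (1 / ((k : ℝ) + 1)) := by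
    intro k
    have h2 := compare (he k) eps_pos summable_eps (fun j hj => atom_ge (he k) j hj) hφ hF'
    have h3 : ∫ z, φ z * (((k : ℝ) + 1)⁻¹ * bergman (e k) z) ∂(atm eps)
        = ((k : ℝ) + 1)⁻¹ * ∫ z, φ z * bergman (e k) z ∂(atm eps) := by
      rw [← integral_const_mul]
      congr 1
      ext z
      ring
    have hk : (0:ℝ) < (k : ℝ) + 1 := by positivity
    rw [h3]
    push_cast
    rw [show ((k : ℝ) + 1)⁻¹ * ∫ z, φ z * bergman (e k) z ∂(atm eps)
        - (∑ j ∈ Finset.range (k + 1), φ (pt j)) / ((k : ℝ) + 1)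
        = (∫ z, φ z * bergman (e k) z ∂(atm eps) - ∑ j ∈ Finset.range (k + 1), φ (pt j))
          * (1 / ((k : ℝ) + 1)) by ring, abs_mul, abs_of_pos (by positivity : 0 < 1 / ((k : ℝ) + 1))]
    gcongr
  have h4 : Tendsto (fun k : ℕ => 2 * F * (1 / ((k : ℝ) + 1))) atTop (𝓝 0) := by
    have := tendsto_one_div_add_atTop_nhds_zero_nat (𝕜 := ℝ)
    simpa using this.const_mul (2 * F)
  have h5 := squeeze_zero_norm (fun k => by rw [Real.norm_eq_abs]; exact h1 k) h4
  have h6 := (equi hφ).comp (tendsto_add_atTop_nat 1)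
  have h7 := h5.add h6
  simp only [Function.comp_def, sub_add_cancel, zero_add] at h7
  exact h7

theorem not_propW (e : (k : ℕ) → Fin (k + 1) → ℂ[X]) (he : ∀ k, IsONB (atm eps) k (e k)) :
    ¬ PropW (fun z => Real.posLog ‖z‖) e := by
  intro h
  have h1 : Tendsto (fun k : ℕ => (2 * (k : ℝ))⁻¹ * Real.log (bergman (e k) 0)) atTop
      (𝓝 (Real.posLog ‖(0:ℂ)‖)) :=
    (tendstoLocallyUniformlyOn_univ.2 h).tendsto_at (mem_univ (0:ℂ))
  rw [norm_zero, Real.posLog_zero] at h1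
  have h2 := h1.eventually (gt_mem_nhds (show (0:ℝ) < 1 by norm_num))
  obtain ⟨k, hk, hk1⟩ := (h2.and (eventually_ge_atTop 1)).exists
  have h3 := bergman_zero_ge (he k) hk1
  have h4 : 2 * (k : ℝ) ≤ Real.log (bergman (e k) 0) := by
    rw [Real.le_log_iff_exp_le (lt_of_lt_of_le (Real.exp_pos _) h3)]
    exact h3
  have hk0 : (0:ℝ) < 2 * (k : ℝ) := by
    have : (1:ℝ) ≤ k := by exact_mod_cast hk1
    linarith
  have h5 : 1 ≤ (2 * (k : ℝ))⁻¹ * Real.log (bergman (e k) 0) := by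
    rw [← div_eq_inv_mul, le_div_iff₀ hk0]
    linarith
  linarith

end Pool.Agent.R283.BM
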